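import Pool.Agent.Y518.CC.FStm
import Pool.Agent.W910.BG.Names

/-!
# Symmetry of the names (Y518-CC NAM, by helper469)
-/

set_option autoImplicit false

namespace Pool.Agent.Y469.CC.Nam

open Pool.Agent.W868 Pool.Agent.W868.PName Pool.Agent.W910 Pool.Agent.W910.SY
open Pool.Agent.Y518.CC
open MeasureTheory
open ZFSet (pair)

variable {k : ℕ} {Γ : SimpleGraph (ℕ → ℕ)} {D : Dat k Γ}

theorem htop (g : Gp) : (smQ D g : Cn D ≃o Cn D) ⊤ = ⊤ := (sys D).top g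

theorem mem_smQ {g : Gp} {c : Cn D} {u : Om k} :
    u ∈ ((smQ D g : Cn D ≃o Cn D) c).1 ↔ mo g u ∈ c.1 := Iff.rfl

theorem smQ_smQ (g : Gp) (c : Cn D) :
    (smQ D g : Cn D ≃o Cn D) ((smQ D g : Cn D ≃o Cn D) c) = c := smC_smC g c

theorem smR_smR (g : Gp) (f : NR k) : smR g (smR g f) = f := by
  refine Subtype.ext (funext fun u => ?_)
  change f.1 (mo g (mo g u)) = f.1 u
  rw [mo_mo]

/-- The action on the arguments of `Lab.col`. -/
noncomputable def mva (g : Gp) (a : LF k) : LF k := (fun n => mv g (a.1 n), a.2)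

theorem mo_lb (g : Gp) (a : LF k) (u : Om k) : mo g u (lb a) = u (lb (mva g a)) := rfl

theorem evN_mva (g : Gp) (a : LF k) : evN (mva g a) = smR g (evN a) := rfl

theorem mva_mva (g : Gp) (a : LF k) : mva g (mva g a) = a :=
  Prod.ext (funext fun n => mv_mv g (a.1 n)) rfl

theorem el_realN {f : NR k} {z : PName (Cn D)} {c : Cn D} : El (realN D f) z c ↔
    ∃ n m : ℕ, (∀ u ∈ c.1, f.1 u n = m) ∧ z = check (pair (nat n) (nat m)) := by
  rw [realN, el_mk]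
  constructor
  · rintro ⟨⟨⟨⟨n, m⟩, U⟩, h⟩, rfl, rfl⟩
    exact ⟨n, m, h, rfl⟩
  · rintro ⟨n, m, h, rfl⟩
    exact ⟨⟨⟨⟨n, m⟩, c⟩, h⟩, rfl, rfl⟩

theorem el_colN {z : PName (Cn D)} {c : Cn D} : El (colN D) z c ↔
    ∃ (a : LF k) (b : Fin (k + 1)), (∀ u ∈ c.1, (u (lb a)).2 = b) ∧
      z = opN (realN D (evN a)) (check (nat (b : ℕ))) := by
  rw [colN, el_mk]
  constructor
  · rintro ⟨⟨⟨⟨a, b⟩, q⟩, h⟩, rfl, rfl⟩
    exact ⟨a, b, h, rfl⟩
  · rintro ⟨a, b, h, rfl⟩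
    exact ⟨⟨⟨⟨a, b⟩, c⟩, h⟩, rfl, rfl⟩

theorem feq_act_realN (g : Gp) (f : NR k) (p : Cn D) :
    Feq (act (smQ D g) (realN D f)) (realN D (smR g f)) p := by
  refine feq_of_el fun z c => ?_
  rw [el_act, el_realN]
  constructor
  · rintro ⟨z', c', hz, rfl, rfl⟩
    obtain ⟨n, m, h, rfl⟩ := el_realN.1 hz
    exact ⟨n, m, fun u hu => h _ hu, act_check (htop g) _⟩
  · rintro ⟨n, m, h, rfl⟩
    refine ⟨_, (smQ D g : Cn D ≃o Cn D) c, el_realN.2 ⟨n, m, fun u hu => ?_, rfl⟩,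
      (act_check (htop g) _).symm, (smQ_smQ g c).symm⟩
    have h1 := h _ hu
    change f.1 (mo g (mo g u)) n = m at h1
    rwa [mo_mo] at h1

theorem hs_realN (h : S_SUF) (f : NR k) : (sys D).HS (realN D f) := by
  refine (sys D).hs_iff.2 ⟨?_, fun z c hz => ?_⟩
  · obtain ⟨S, hS, hf⟩ := h k f
    refine ⟨Fx S, ⟨S, hS, rfl⟩, fun g hg p => ?_⟩
    have h3 := feq_act_realN (D := D) g f p
    rw [hf g hg] at h3
    exact h3
  · obtain ⟨n, m, -, rfl⟩ := el_realN.1 hz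
    exact (sys D).hs_check _

theorem key (g : Gp) {c : Cn D} {a : LF k} {b : Fin (k + 1)} (h : ∀ u ∈ c.1, (u (lb a)).2 = b) :
    ∀ u ∈ ((smQ D g : Cn D ≃o Cn D) c).1, (u (lb (mva g a))).2 = b := fun _ hu =>
  h _ hu

theorem hs_colN (h : S_SUF) : (sys D).HS (colN D) := by
  refine (sys D).hs_iff.2 ⟨?_, fun z c hz => ?_⟩
  · refine ⟨Fx ∅, ⟨∅, Set.countable_empty, rfl⟩, fun (g : Gp) _ p => ?_⟩
    change Feq (act (smQ D g) (colN D)) (colN D) p
    rw [feq_iff']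
    constructor
    · intro z c hz q hq hqc
      obtain ⟨z', c', hz', rfl, rfl⟩ := el_act.1 hz
      obtain ⟨a, b, h, rfl⟩ := el_colN.1 hz'
      refine ⟨q, le_rfl, opN (realN D (evN (mva g a))) (check (nat (b : ℕ))), smQ D g c',
        el_colN.2 ⟨_, b, key g h, rfl⟩, hqc, ?_⟩
      rw [act_opN (htop g), act_check (htop g)]
      exact feq_opN (feq_act_realN g (evN a) q) (Feq.refl _ _)
    · intro w d hw q hq hqd
      obtain ⟨a, b, h, rfl⟩ := el_colN.1 hw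
      refine ⟨q, le_rfl, act (smQ D g) (opN (realN D (evN (mva g a))) (check (nat (b : ℕ)))),
        smQ D g (smQ D g d), el_act.2 ⟨_, _, el_colN.2 ⟨_, b, key g h, rfl⟩, rfl, rfl⟩, ?_, ?_⟩
      · rw [smQ_smQ]
        exact hqd
      · rw [act_opN (htop g), act_check (htop g)]
        have h3 := feq_act_realN (D := D) g (evN (mva g a)) q
        rw [evN_mva, smR_smR] at h3
        exact feq_opN h3 (Feq.refl _ _)
  · obtain ⟨a, b, -, rfl⟩ := el_colN.1 hz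
    exact (sys D).hs_opN (hs_realN h (evN a)) ((sys D).hs_check _)

/-- **NAM.** -/
theorem main (h : S_SUF) : S_NAM := fun _ _ _ =>
  ⟨fun f => hs_realN h f, hs_colN h, fun g f p => feq_act_realN g f p⟩

end Pool.Agent.Y469.CC.Nam
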